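import Pool.Agent.Helper68.Fam.Goals

/-!
# Project FAM (MP_18808e_co): packet TWO2
-/

namespace NApexGraphs.Fam.Helper46

open SimpleGraph NApexGraphs NApexGraphs.Dom NApexGraphs.Fam NApexGraphs.Fam.Goals

variable {V : Type} [DecidableEq V]

/-- the branch set of a pair of indices -/
def br (f : Fin 8 → V) (x : Fin 8 × Fin 8) : Set V := {f x.1, f x.2}

/-- adjacency of the model graph -/
def adj0 (t1 t2 : Finset (Fin 8)) (i j : Fin 8) : Bool :=
  decide (i ≠ j ∧ ¬ (i ∈ ({0, 1, 2} : Finset (Fin 8)) ∧ j ∈ ({0, 1, 2} : Finset (Fin 8))) ∧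
    ¬ (i ∈ ({3, 4, 5} : Finset (Fin 8)) ∧ j ∈ ({3, 4, 5} : Finset (Fin 8))) ∧
    ¬ (i ∈ t1 ∧ j ∈ t1) ∧ ¬ (i ∈ t2 ∧ j ∈ t2))

/-- connectedness check -/
def cc (t1 t2 : Finset (Fin 8)) (x : Fin 8 × Fin 8) : Bool :=
  decide (x.1 = x.2) || adj0 t1 t2 x.1 x.2

/-- disjointness check -/
def dd (x y : Fin 8 × Fin 8) : Bool :=
  decide (x.1 ≠ y.1 ∧ x.1 ≠ y.2 ∧ x.2 ≠ y.1 ∧ x.2 ≠ y.2)

/-- touching check -/
def tt (t1 t2 : Finset (Fin 8)) (x y : Fin 8 × Fin 8) : Bool :=
  adj0 t1 t2 x.1 y.1 || adj0 t1 t2 x.1 y.2 || adj0 t1 t2 x.2 y.1 || adj0 t1 t2 x.2 y.2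

theorem core {H : SimpleGraph V} {P A B : Finset V} {S : Finset (Finset V)}
    (h : Two H P A B S) (f : Fin 8 → V) (hf : Function.Injective f)
    (hP : P = Finset.univ.image f) (hA : A = ({0, 1, 2} : Finset (Fin 8)).image f)
    (hB : B = ({3, 4, 5} : Finset (Fin 8)).image f) (t1 t2 : Finset (Fin 8))
    (hS : ∀ T ∈ S, T = t1.image f ∨ T = t2.image f)
    (X Y : Fin 3 → Fin 8 × Fin 8) (c1 : ∀ i, cc t1 t2 (X i) = true ∧ cc t1 t2 (Y i) = true)
    (c2 : ∀ i j, i ≠ j → dd (X i) (X j) = true ∧ dd (Y i) (Y j) = true)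
    (c3 : ∀ i j, dd (X i) (Y j) = true ∧ tt t1 t2 (X i) (Y j) = true) :
    ¬ Pl H (P : Set V) := by
  have hadj : ∀ i j, adj0 t1 t2 i j = true → H.Adj (f i) (f j) := by
    intro i j hij
    unfold adj0 at hij
    rw [decide_eq_true_iff] at hij
    obtain ⟨h1, h2, h3, h4, h5⟩ := hij
    have hmem : ∀ (t : Finset (Fin 8)) (k : Fin 8), f k ∈ t.image f ↔ k ∈ t := by
      intro t k
      rw [Finset.mem_image]
      constructor
      · rintro ⟨l, hl, hlk⟩
        rw [← hf hlk]; exact hl
      · intro hk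
        exact ⟨k, hk, rfl⟩
    refine h.adj (f i) ?_ (f j) ?_ (fun he => h1 (hf he)) ?_ ?_ ?_
    · rw [hP, hmem]; exact Finset.mem_univ _
    · rw [hP, hmem]; exact Finset.mem_univ _
    · rw [hA, hmem, hmem]; exact h2
    · rw [hB, hmem, hmem]; exact h3
    · intro T hT
      rcases hS T hT with h' | h'
      · rw [h', hmem, hmem]; exact h4
      · rw [h', hmem, hmem]; exact h5
  have hc : ∀ x, cc t1 t2 x = true → Conn H (br f x) := by
    intro x hx
    unfold cc at hx
    rw [Bool.or_eq_true, decide_eq_true_iff] at hx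
    unfold br
    rcases hx with hx | hx
    · rw [← hx, Set.pair_eq_singleton]
      exact Conn.singleton H _
    · exact conn_pair (hadj _ _ hx)
  have hd : ∀ x y, dd x y = true → Disjoint (br f x) (br f y) := by
    intro x y hxy
    unfold dd at hxy
    rw [decide_eq_true_iff] at hxy
    obtain ⟨h1, h2, h3, h4⟩ := hxy
    unfold br
    rw [Set.disjoint_left]
    intro z hz hz'
    simp only [Set.mem_insert_iff, Set.mem_singleton_iff] at hz hz'
    rcases hz with hz | hz <;> rcases hz' with hz' | hz'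
    · exact h1 (hf (hz.symm.trans hz'))
    · exact h2 (hf (hz.symm.trans hz'))
    · exact h3 (hf (hz.symm.trans hz'))
    · exact h4 (hf (hz.symm.trans hz'))
  have ht : ∀ x y, tt t1 t2 x y = true → Touch H (br f x) (br f y) := by
    intro x y hxy
    unfold tt at hxy
    rw [Bool.or_eq_true, Bool.or_eq_true, Bool.or_eq_true] at hxy
    unfold br
    rcases hxy with ((hxy | hxy) | hxy) | hxy
    · exact ⟨_, Or.inl rfl, _, Or.inl rfl, hadj _ _ hxy⟩
    · exact ⟨_, Or.inl rfl, _, Or.inr rfl, hadj _ _ hxy⟩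
    · exact ⟨_, Or.inr rfl, _, Or.inl rfl, hadj _ _ hxy⟩
    · exact ⟨_, Or.inr rfl, _, Or.inr rfl, hadj _ _ hxy⟩
  have hs : ∀ x, br f x ⊆ (P : Set V) := by
    intro x z hz
    unfold br at hz
    simp only [Set.mem_insert_iff, Set.mem_singleton_iff] at hz
    rw [hP, Finset.mem_coe, Finset.mem_image]
    rcases hz with hz | hz
    · exact ⟨x.1, Finset.mem_univ _, hz.symm⟩
    · exact ⟨x.2, Finset.mem_univ _, hz.symm⟩
  intro hpl
  apply hpl.2
  exact hasK33_mk (fun i => br f (X i)) (fun i => br f (Y i)) (fun i => hc _ (c1 i).1)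
    (fun i => hc _ (c1 i).2) (fun i j hij => hd _ _ (c2 i j hij).1)
    (fun i j hij => hd _ _ (c2 i j hij).2) (fun i j => hd _ _ (c3 i j).1)
    (fun i j => ht _ _ (c3 i j).2) (fun i => hs _) (fun i => hs _)

/-- the same with names for the points -/
theorem core' {H : SimpleGraph V} {P A B : Finset V} {S : Finset (Finset V)}
    (h : Two H P A B S) (a1 a2 a3 b1 b2 b3 w1 w2 : V) (hP8 : P.card = 8)
    (hP : P = A ∪ B ∪ {w1, w2}) (hA : A = {a1, a2, a3}) (hB : B = {b1, b2, b3})
    (t1 t2 : Finset (Fin 8))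
    (hS : ∀ T ∈ S, T = t1.image ![a1, a2, a3, b1, b2, b3, w1, w2] ∨
      T = t2.image ![a1, a2, a3, b1, b2, b3, w1, w2])
    (X Y : Fin 3 → Fin 8 × Fin 8) (c1 : ∀ i, cc t1 t2 (X i) = true ∧ cc t1 t2 (Y i) = true)
    (c2 : ∀ i j, i ≠ j → dd (X i) (X j) = true ∧ dd (Y i) (Y j) = true)
    (c3 : ∀ i j, dd (X i) (Y j) = true ∧ tt t1 t2 (X i) (Y j) = true) :
    ¬ Pl H (P : Set V) := by
  have e0 : (Finset.univ : Finset (Fin 8)) = {0, 1, 2} ∪ {3, 4, 5} ∪ {6, 7} := by decide
  have eA : A = ({0, 1, 2} : Finset (Fin 8)).image ![a1, a2, a3, b1, b2, b3, w1, w2] := by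
    rw [hA, Finset.image_insert, Finset.image_insert, Finset.image_singleton]
    rfl
  have eB : B = ({3, 4, 5} : Finset (Fin 8)).image ![a1, a2, a3, b1, b2, b3, w1, w2] := by
    rw [hB, Finset.image_insert, Finset.image_insert, Finset.image_singleton]
    rfl
  have eW : ({w1, w2} : Finset V) =
      ({6, 7} : Finset (Fin 8)).image ![a1, a2, a3, b1, b2, b3, w1, w2] := by
    rw [Finset.image_insert, Finset.image_singleton]
    rfl
  have eP : P = Finset.univ.image ![a1, a2, a3, b1, b2, b3, w1, w2] := by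
    rw [e0, Finset.image_union, Finset.image_union, ← eA, ← eB, ← eW]
    exact hP
  have hinj : Function.Injective ![a1, a2, a3, b1, b2, b3, w1, w2] := by
    have h1 : Set.InjOn ![a1, a2, a3, b1, b2, b3, w1, w2]
        ((Finset.univ : Finset (Fin 8)) : Set (Fin 8)) := by
      rw [← Finset.card_image_iff, ← eP, hP8]
      rfl
    intro x y hxy
    exact h1 (by simp) (by simp) hxy
  exact core h _ hinj eP eA eB t1 t2 hS X Y c1 c2 c3

theorem three1 {A : Finset V} {a : V} (hA : A.card = 3) (ha : a ∈ A) : ∃ b c, A = {a, b, c} := by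
  have h1 : (A.erase a).card = 2 := by rw [Finset.card_erase_of_mem ha, hA]
  obtain ⟨b, c, hbc, h2⟩ := Finset.card_eq_two.1 h1
  exact ⟨b, c, by rw [← Finset.insert_erase ha, h2]⟩

theorem two1 {A : Finset V} {a : V} (hA : A.card = 2) (ha : a ∈ A) : ∃ b, A = {a, b} := by
  have h1 : (A.erase a).card = 1 := by rw [Finset.card_erase_of_mem ha, hA]
  obtain ⟨b, h2⟩ := Finset.card_eq_one.1 h1
  exact ⟨b, by rw [← Finset.insert_erase ha, h2]⟩

theorem three2 {A : Finset V} {a b : V} (hA : A.card = 3) (ha : a ∈ A) (hb : b ∈ A)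
    (hab : a ≠ b) : ∃ c, A = {a, b, c} := by
  have h1 : (A.erase a).card = 2 := by rw [Finset.card_erase_of_mem ha, hA]
  obtain ⟨c, hc⟩ := two1 h1 (Finset.mem_erase.2 ⟨hab.symm, hb⟩)
  exact ⟨c, by rw [← Finset.insert_erase ha, hc]⟩

theorem two2 {A : Finset V} {a b : V} (hA : A.card = 2) (ha : a ∈ A) (hb : b ∈ A)
    (hab : a ≠ b) : A = {a, b} := by
  obtain ⟨c, hc⟩ := two1 hA ha
  rw [hc] at hb
  rw [Finset.mem_insert, Finset.mem_singleton] at hb
  rcases hb with hb | hb
  · exact absurd hb.symm hab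
  · rw [hb]; exact hc

/-- the possible forms of a triple -/
theorem form {P A B W T : Finset V} (hP : P = A ∪ B ∪ W) (hAB : Disjoint A B)
    (hAW : Disjoint (A ∪ B) W) (hW : W.card = 2) (hT : T.card = 3) (hTP : 3 ≤ (T ∩ P).card)
    (hTA : (T ∩ A).card ≤ 1) (hTB : (T ∩ B).card ≤ 1) :
    (∃ a ∈ A, ∃ b ∈ B, ∃ w ∈ W, T = {a, b, w}) ∨ (∃ a ∈ A, T = insert a W) ∨
      (∃ b ∈ B, T = insert b W) := by
  have hsub : T ∩ P = T := Finset.eq_of_subset_of_card_le Finset.inter_subset_left (by omega)
  have hdec : T = (T ∩ A ∪ T ∩ B) ∪ T ∩ W := by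
    rw [← Finset.inter_union_distrib_left, ← Finset.inter_union_distrib_left, ← hP, hsub]
  have hd1 : Disjoint (T ∩ A) (T ∩ B) :=
    Finset.disjoint_of_subset_left Finset.inter_subset_right
      (Finset.disjoint_of_subset_right Finset.inter_subset_right hAB)
  have hd2 : Disjoint (T ∩ A ∪ T ∩ B) (T ∩ W) := by
    rw [← Finset.inter_union_distrib_left]
    exact Finset.disjoint_of_subset_left Finset.inter_subset_right
      (Finset.disjoint_of_subset_right Finset.inter_subset_right hAW)
  have hcard : T.card = (T ∩ A).card + (T ∩ B).card + (T ∩ W).card := by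
    conv_lhs => rw [hdec]
    rw [Finset.card_union_of_disjoint hd2, Finset.card_union_of_disjoint hd1]
  have hWle : (T ∩ W).card ≤ 2 := by
    rw [← hW]; exact Finset.card_le_card Finset.inter_subset_right
  have hWeq : (T ∩ W).card = 2 → T ∩ W = W := fun h =>
    Finset.eq_of_subset_of_card_le Finset.inter_subset_right (by omega)
  by_cases h1 : (T ∩ A).card = 0
  · have h2 : (T ∩ B).card = 1 := by omega
    have h3 : (T ∩ W).card = 2 := by omega
    obtain ⟨b, hb⟩ := Finset.card_eq_one.1 h2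
    right; right
    refine ⟨b, ?_, ?_⟩
    · have : b ∈ T ∩ B := by rw [hb]; exact Finset.mem_singleton_self _
      exact (Finset.mem_inter.1 this).2
    · rw [hdec, Finset.card_eq_zero.1 h1, hb, hWeq h3, Finset.empty_union]
      rfl
  · have h1' : (T ∩ A).card = 1 := by omega
    obtain ⟨a, ha⟩ := Finset.card_eq_one.1 h1'
    have haA : a ∈ A := by
      have : a ∈ T ∩ A := by rw [ha]; exact Finset.mem_singleton_self _
      exact (Finset.mem_inter.1 this).2
    by_cases h2 : (T ∩ B).card = 0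
    · have h3 : (T ∩ W).card = 2 := by omega
      right; left
      refine ⟨a, haA, ?_⟩
      rw [hdec, Finset.card_eq_zero.1 h2, ha, hWeq h3, Finset.union_empty]
      rfl
    · have h2' : (T ∩ B).card = 1 := by omega
      have h3 : (T ∩ W).card = 1 := by omega
      obtain ⟨b, hb⟩ := Finset.card_eq_one.1 h2'
      obtain ⟨w, hw⟩ := Finset.card_eq_one.1 h3
      have hbB : b ∈ B := by
        have : b ∈ T ∩ B := by rw [hb]; exact Finset.mem_singleton_self _
        exact (Finset.mem_inter.1 this).2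
      have hwW : w ∈ W := by
        have : w ∈ T ∩ W := by rw [hw]; exact Finset.mem_singleton_self _
        exact (Finset.mem_inter.1 this).2
      left
      refine ⟨a, haA, b, hbB, w, hwW, ?_⟩
      rw [hdec, ha, hb, hw]
      ext z
      simp only [Finset.mem_union, Finset.mem_singleton, Finset.mem_insert, or_assoc]

/-- two different triples of the shape of the packet -/
theorem main {H : SimpleGraph V} {P A B : Finset V} {T1 T2 : Finset V}
    (h : Two H P A B {T1, T2}) (hne : T1 ≠ T2) (W : Finset V) (hP : P = A ∪ B ∪ W)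
    (hP8 : P.card = 8) (hA : A.card = 3) (hB : B.card = 3) (hW : W.card = 2)
    (hAB : Disjoint A B) (hAW : Disjoint (A ∪ B) W)
    {a b w : V} (ha : a ∈ A) (hb : b ∈ B) (hw : w ∈ W) (h1 : T1 = {a, b, w})
    (h2 : (∃ a ∈ A, ∃ b ∈ B, ∃ w ∈ W, T2 = {a, b, w}) ∨ (∃ a ∈ A, T2 = insert a W) ∨
      (∃ b ∈ B, T2 = insert b W)) : ¬ Pl H (P : Set V) := by
  have hpair : (T1 ∩ T2).card ≤ 1 := h.pair T1 (by simp) T2 (by simp) hne
  have hpair' : ∀ x y, x ≠ y → x ∈ T1 → x ∈ T2 → y ∈ T1 → y ∈ T2 → False := by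
    intro x y hxy hx1 hx2 hy1 hy2
    have h3 : ({x, y} : Finset V) ⊆ T1 ∩ T2 := by
      intro z hz
      rw [Finset.mem_insert, Finset.mem_singleton] at hz
      rcases hz with hz | hz
      · rw [hz]; exact Finset.mem_inter.2 ⟨hx1, hx2⟩
      · rw [hz]; exact Finset.mem_inter.2 ⟨hy1, hy2⟩
    have h4 := Finset.card_le_card h3
    rw [Finset.card_pair hxy] at h4
    omega
  have hab : a ≠ b := fun he => Finset.disjoint_left.1 hAB ha (he ▸ hb)
  have haw : a ≠ w := fun he =>
    Finset.disjoint_left.1 hAW (Finset.mem_union_left _ ha) (he ▸ hw)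
  have hbw : b ≠ w := fun he =>
    Finset.disjoint_left.1 hAW (Finset.mem_union_right _ hb) (he ▸ hw)
  rcases h2 with ⟨a', ha', b', hb', w', hw', h2⟩ | ⟨a', ha', h2⟩ | ⟨b', hb', h2⟩
  · by_cases e1 : a = a'
    · -- case (iii)
      subst e1
      have e2 : b ≠ b' := by
        intro he
        exact hpair' a b hab (by simp [h1]) (by simp [h2]) (by simp [h1]) (by simp [h2, he])
      have e3 : w ≠ w' := by
        intro he
        exact hpair' a w haw (by simp [h1]) (by simp [h2]) (by simp [h1]) (by simp [h2, he])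
      obtain ⟨a2, a3, hA'⟩ := three1 hA ha
      obtain ⟨b3, hB'⟩ := three2 hB hb hb' e2
      have hW' := two2 hW hw hw' e3
      refine core' h a a2 a3 b b' b3 w w' hP8 (by rw [← hW']; exact hP) hA' hB'
        {0, 3, 6} {0, 4, 7} ?_ ![(3, 3), (4, 4), (5, 5)] ![(1, 1), (2, 2), (6, 7)]
        (by decide) (by decide) (by decide)
      intro T hT
      rw [Finset.mem_insert, Finset.mem_singleton] at hT
      rcases hT with hT | hT
      · left
        rw [hT, h1, Finset.image_insert, Finset.image_insert, Finset.image_singleton]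
        rfl
      · right
        rw [hT, h2, Finset.image_insert, Finset.image_insert, Finset.image_singleton]
        rfl
    · by_cases e2 : b = b'
      · -- case (iii')
        subst e2
        have e3 : w ≠ w' := by
          intro he
          exact hpair' b w hbw (by simp [h1]) (by simp [h2]) (by simp [h1]) (by simp [h2, he])
        obtain ⟨a3, hA'⟩ := three2 hA ha ha' e1
        obtain ⟨b2, b3, hB'⟩ := three1 hB hb
        have hW' := two2 hW hw hw' e3
        refine core' h a a' a3 b b2 b3 w w' hP8 (by rw [← hW']; exact hP) hA' hB'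
          {0, 3, 6} {1, 3, 7} ?_ ![(0, 0), (1, 1), (2, 2)] ![(4, 4), (5, 5), (6, 7)]
          (by decide) (by decide) (by decide)
        intro T hT
        rw [Finset.mem_insert, Finset.mem_singleton] at hT
        rcases hT with hT | hT
        · left
          rw [hT, h1, Finset.image_insert, Finset.image_insert, Finset.image_singleton]
          rfl
        · right
          rw [hT, h2, Finset.image_insert, Finset.image_insert, Finset.image_singleton]
          rfl
      · obtain ⟨a3, hA'⟩ := three2 hA ha ha' e1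
        obtain ⟨b3, hB'⟩ := three2 hB hb hb' e2
        by_cases e3 : w = w'
        · -- case (ii)
          subst e3
          obtain ⟨w2, hW'⟩ := two1 hW hw
          refine core' h a a' a3 b b' b3 w w2 hP8 (by rw [← hW']; exact hP) hA' hB'
            {0, 3, 6} {1, 4, 6} ?_ ![(2, 2), (5, 5), (7, 7)] ![(6, 6), (3, 1), (4, 0)]
            (by decide) (by decide) (by decide)
          intro T hT
          rw [Finset.mem_insert, Finset.mem_singleton] at hT
          rcases hT with hT | hT
          · left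
            rw [hT, h1, Finset.image_insert, Finset.image_insert, Finset.image_singleton]
            rfl
          · right
            rw [hT, h2, Finset.image_insert, Finset.image_insert, Finset.image_singleton]
            rfl
        · -- case (iv)
          have hW' := two2 hW hw hw' e3
          refine core' h a a' a3 b b' b3 w w' hP8 (by rw [← hW']; exact hP) hA' hB'
            {0, 3, 6} {1, 4, 7} ?_ ![(2, 2), (5, 5), (6, 6)] ![(7, 7), (3, 1), (4, 0)]
            (by decide) (by decide) (by decide)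
          intro T hT
          rw [Finset.mem_insert, Finset.mem_singleton] at hT
          rcases hT with hT | hT
          · left
            rw [hT, h1, Finset.image_insert, Finset.image_insert, Finset.image_singleton]
            rfl
          · right
            rw [hT, h2, Finset.image_insert, Finset.image_insert, Finset.image_singleton]
            rfl
  · -- case (i): T2 = {a', w, w2}, T1 = {a, b, w}
    have e1 : a ≠ a' := by
      intro he
      exact hpair' a w haw (by simp [h1]) (by simp [h2, he]) (by simp [h1]) (by simp [h2, hw])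
    obtain ⟨a3, hA'⟩ := three2 hA ha ha' e1
    obtain ⟨b2, b3, hB'⟩ := three1 hB hb
    obtain ⟨w2, hW'⟩ := two1 hW hw
    refine core' h a a' a3 b b2 b3 w w2 hP8 (by rw [← hW']; exact hP) hA' hB'
      {0, 3, 6} {1, 6, 7} ?_ ![(0, 0), (1, 1), (2, 2)] ![(4, 4), (5, 5), (3, 7)]
      (by decide) (by decide) (by decide)
    intro T hT
    rw [Finset.mem_insert, Finset.mem_singleton] at hT
    rcases hT with hT | hT
    · left
      rw [hT, h1, Finset.image_insert, Finset.image_insert, Finset.image_singleton]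
      rfl
    · right
      rw [hT, h2, hW', Finset.image_insert, Finset.image_insert, Finset.image_singleton]
      rfl
  · -- case (i')
    have e1 : b ≠ b' := by
      intro he
      exact hpair' b w hbw (by simp [h1]) (by simp [h2, he]) (by simp [h1]) (by simp [h2, hw])
    obtain ⟨a2, a3, hA'⟩ := three1 hA ha
    obtain ⟨b3, hB'⟩ := three2 hB hb hb' e1
    obtain ⟨w2, hW'⟩ := two1 hW hw
    refine core' h a a2 a3 b b' b3 w w2 hP8 (by rw [← hW']; exact hP) hA' hB'
      {0, 3, 6} {4, 6, 7} ?_ ![(3, 3), (4, 4), (5, 5)] ![(1, 1), (2, 2), (0, 7)]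
      (by decide) (by decide) (by decide)
    intro T hT
    rw [Finset.mem_insert, Finset.mem_singleton] at hT
    rcases hT with hT | hT
    · left
      rw [hT, h1, Finset.image_insert, Finset.image_insert, Finset.image_singleton]
      rfl
    · right
      rw [hT, h2, hW', Finset.image_insert, Finset.image_insert, Finset.image_singleton]
      rfl

theorem gTWO2 : Goals.NORM2 → Goals.KILL → Goals.TWO1 → Goals.TWO2 := by
  intro hnorm hkill hone V _ H P A B S h hS
  obtain ⟨P', A', B', h', hPP', hPc, hAP, hBP, hA3, hB3⟩ := hnorm V H P A B S h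
  suffices hmain : ¬ Pl H (P' : Set V) from
    fun hpl => hmain (hpl.mono le_rfl (Finset.coe_subset.2 hPP'))
  -- reduction by KILL
  by_cases hk : ∃ T ∈ S, (T ∩ P').card ≤ 2 ∨ 2 ≤ (T ∩ A').card ∨ 2 ≤ (T ∩ B').card
  · obtain ⟨T, hT, hT'⟩ := hk
    obtain ⟨z, hz, h2⟩ := hkill V H P' A' B' S h' T hT hT'
    have h3 := hone V H (P'.erase z) A' B' (S.erase T) h2
      (by rw [Finset.card_erase_of_mem hT, hS])
    exact fun hpl => h3 (hpl.mono le_rfl (Finset.coe_subset.2 (Finset.erase_subset _ _)))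
  · have hk' : ∀ T ∈ S, 3 ≤ (T ∩ P').card ∧ (T ∩ A').card ≤ 1 ∧ (T ∩ B').card ≤ 1 := by
      intro T hT
      by_contra hcon
      apply hk
      refine ⟨T, hT, ?_⟩
      by_contra hcon'
      apply hcon
      push Not at hcon'
      refine ⟨?_, ?_, ?_⟩ <;> omega
    obtain ⟨T1, T2, hne, hST⟩ := Finset.card_eq_two.1 hS
    subst hST
    have hP8 : P'.card = 8 := by rw [hPc, hS]
    have hABP : A' ∪ B' ⊆ P' := Finset.union_subset hAP hBP
    have hcAB : (A' ∪ B').card = 6 := by
      rw [Finset.card_union_of_disjoint h'.dis, hA3, hB3]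
    have hP : P' = A' ∪ B' ∪ (P' \ (A' ∪ B')) := (Finset.union_sdiff_of_subset hABP).symm
    have hW : (P' \ (A' ∪ B')).card = 2 := by
      rw [Finset.card_sdiff_of_subset hABP, hP8, hcAB]
    have hAW : Disjoint (A' ∪ B') (P' \ (A' ∪ B')) := Finset.disjoint_sdiff
    have hc3 : ∀ T ∈ ({T1, T2} : Finset (Finset V)), T.card = 3 := by
      intro T hT
      have h1 := h'.cT T hT
      have h2 := (hk' T hT).1
      have h3 : (T ∩ P').card ≤ T.card := Finset.card_le_card Finset.inter_subset_left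
      omega
    have m1 : T1 ∈ ({T1, T2} : Finset (Finset V)) := by simp
    have m2 : T2 ∈ ({T1, T2} : Finset (Finset V)) := by simp
    have f1 := form hP h'.dis hAW hW (hc3 T1 m1) (hk' T1 m1).1 (hk' T1 m1).2.1 (hk' T1 m1).2.2
    have f2 := form hP h'.dis hAW hW (hc3 T2 m2) (hk' T2 m2).1 (hk' T2 m2).2.1 (hk' T2 m2).2.2
    rcases f1 with ⟨a, ha, b, hb, w, hw, e⟩ | f1
    · exact main h' hne _ hP hP8 hA3 hB3 hW h'.dis hAW ha hb hw e f2
    · rcases f2 with ⟨a, ha, b, hb, w, hw, e⟩ | f2
      · have h'' : Two H P' A' B' {T2, T1} := by rw [Finset.pair_comm]; exact h'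
        exact main h'' hne.symm _ hP hP8 hA3 hB3 hW h'.dis hAW ha hb hw e (Or.inr f1)
      · -- both contain W
        exfalso
        have g1 : P' \ (A' ∪ B') ⊆ T1 := by
          rcases f1 with ⟨a, _, e⟩ | ⟨a, _, e⟩ <;> rw [e] <;> exact Finset.subset_insert _ _
        have g2 : P' \ (A' ∪ B') ⊆ T2 := by
          rcases f2 with ⟨a, _, e⟩ | ⟨a, _, e⟩ <;> rw [e] <;> exact Finset.subset_insert _ _
        have g3 := Finset.card_le_card (Finset.subset_inter g1 g2)
        have g4 := h'.pair T1 m1 T2 m2 hne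
        omega

end NApexGraphs.Fam.Helper46
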